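import Mathlib
import Pool.Agent.Helper78.LK.Goals

/-!
# Project LK (MP_5a63b6_lc), packet PWR
-/

set_option autoImplicit false

namespace Pool.Agent.Helper10.LK

open Pool.Agent.Helper50.KP Pool.Agent.Helper78.LK

lemma br4_nil : Br4 [] := by intro e he; simp at he

lemma br4_append {u v : Word} (hu : Br4 u) (hv : Br4 v) : Br4 (u ++ v) := by
  intro e he
  rw [List.mem_append] at he
  rcases he with he | he
  · exact hu e he
  · exact hv e he

lemma br4_replicate (s : Bool) (p n : ℕ) (hp : p ≤ 2) :
    Br4 (List.replicate n ((Kind.X s, p) : Ev)) := by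
  intro e he
  rw [List.mem_replicate] at he
  rw [he.2]
  exact ⟨rfl, hp⟩

lemma br4_uW : Br4 uW := by
  intro e he
  simp only [uW, List.mem_cons, List.not_mem_nil, or_false] at he
  rcases he with rfl | rfl
  · exact ⟨rfl, by norm_num⟩
  · exact ⟨rfl, by norm_num⟩

lemma br4_flat (a : ℕ) {w : Word} (hw : Br4 w) : Br4 ((List.replicate a w).flatten) := by
  induction a with
  | zero => simpa using br4_nil
  | succ a ih =>
    rw [List.replicate_succ, List.flatten_cons]
    exact br4_append hw ih

lemma bi_replicate (s : Bool) (p n : ℕ) :
    bi (List.replicate n ((Kind.X s, p) : Ev)) = List.replicate n ((Kind.X (!s), p) : Ev) := by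
  unfold bi
  rw [List.map_replicate, List.reverse_replicate]
  rfl

lemma xW_eq (b : ℕ) : xW b = List.replicate b ((Kind.X true, 1) : Ev) ++ uW ++
    List.replicate b ((Kind.X false, 1) : Ev) := by
  induction b with
  | zero => simp [xW]
  | succ b ih =>
    rw [List.replicate_succ, List.replicate_succ' (n := b) (a := ((Kind.X false, 1) : Ev))]
    show (Kind.X true, 1) :: xW b ++ [(Kind.X false, 1)] = _
    rw [ih]
    simp only [List.cons_append, List.append_assoc]

theorem gPWR (hTQ : TQ) (hBIC : BIC) : PWR := by
  obtain ⟨t1, t2, _, t4⟩ := hTQ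
  obtain ⟨b1, _, b3⟩ := hBIC
  have hsym : ∀ {w w' : Word}, Teq 4 w w' → Teq 4 w' w := fun h => (t1 4 _ _ h).1
  have htr : ∀ {w w' w'' : Word}, Teq 4 w w' → Teq 4 w' w'' → Teq 4 w w'' := fun h h' => h.trans h'
  have hctx : ∀ (u v w w' : Word), Br4 u → Br4 v → Br4 w → Teq 4 w w' →
      Teq 4 (u ++ w ++ v) (u ++ w' ++ v) := by
    intro u v w w' hu hv hw h
    refine t2 4 4 u v w w' (b1 u hu).1 ?_ h
    rw [(b1 _ (br4_append (br4_append hu hw) hv)).1]
    rfl
  -- exchange of the two letters
  have hex : Teq 4 [((Kind.X true, 0) : Ev), (Kind.X false, 2)]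
      [((Kind.X false, 2) : Ev), (Kind.X true, 0)] := by
    have h := t4 4 [] [] [((Kind.X true, 0) : Ev), (Kind.X false, 2)]
      [((Kind.X false, 2) : Ev), (Kind.X true, 0)]
      (Or.inl (Pl.comm (.X true) (.X false) 0 0)) (by rfl) (by rfl)
    simpa using h
  have hD : ∀ a : ℕ, Teq 4 (List.replicate a ((Kind.X true, 0) : Ev) ++ [(Kind.X false, 2)])
      ([((Kind.X false, 2) : Ev)] ++ List.replicate a (Kind.X true, 0)) := by
    intro a
    induction a with
    | zero => exact Relation.ReflTransGen.refl
    | succ a ih =>
      have h1 := hctx [((Kind.X true, 0) : Ev)] [] _ _ (br4_replicate true 0 1 (by norm_num))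
        br4_nil (br4_append (br4_replicate true 0 a (by norm_num))
          (br4_replicate false 2 1 (by norm_num))) ih
      have h2 := hctx [] (List.replicate a ((Kind.X true, 0) : Ev)) _ _ br4_nil
        (br4_replicate true 0 a (by norm_num)) br4_uW hex
      have h3 := htr h1 (by simpa [uW] using h2)
      simpa [List.replicate_succ] using h3
  have hC : ∀ a : ℕ, Teq 4 (List.replicate a ((Kind.X true, 0) : Ev) ++
      List.replicate a (Kind.X false, 2)) ((List.replicate a uW).flatten) := by
    intro a
    induction a with
    | zero => exact Relation.ReflTransGen.refl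
    | succ a ih =>
      have h1 := hctx [((Kind.X true, 0) : Ev)] (List.replicate a ((Kind.X false, 2) : Ev)) _ _
        (br4_replicate true 0 1 (by norm_num)) (br4_replicate false 2 a (by norm_num))
        (br4_append (br4_replicate true 0 a (by norm_num))
          (br4_replicate false 2 1 (by norm_num))) (hD a)
      have h2 := hctx uW [] _ _ br4_uW br4_nil (br4_append (br4_replicate true 0 a (by norm_num))
          (br4_replicate false 2 a (by norm_num))) ih
      rw [List.replicate_succ (a := uW), List.flatten_cons]
      have e1 : List.replicate (a + 1) ((Kind.X true, 0) : Ev) ++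
          List.replicate (a + 1) ((Kind.X false, 2) : Ev) =
          [((Kind.X true, 0) : Ev)] ++ (List.replicate a ((Kind.X true, 0) : Ev) ++
            [(Kind.X false, 2)]) ++ List.replicate a ((Kind.X false, 2) : Ev) := by
        simp [List.replicate_succ]
      have e2 : [((Kind.X true, 0) : Ev)] ++ ([((Kind.X false, 2) : Ev)] ++
          List.replicate a (Kind.X true, 0)) ++ List.replicate a ((Kind.X false, 2) : Ev) =
          uW ++ (List.replicate a ((Kind.X true, 0) : Ev) ++
            List.replicate a (Kind.X false, 2)) ++ [] := by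
        simp [uW]
      rw [e2] at h1
      rw [e1]
      have h3 := htr h1 h2
      rw [List.append_nil] at h3
      exact h3
  intro a b
  set P := List.replicate b ((Kind.X true, 1) : Ev) with hP
  set P' := List.replicate b ((Kind.X false, 1) : Ev) with hP'
  have bP : Br4 P := br4_replicate true 1 b (by norm_num)
  have bP' : Br4 P' := br4_replicate false 1 b (by norm_num)
  have hbi : bi P = P' := bi_replicate true 1 b
  have hPP' : Teq 4 (P ++ P') [] := by
    have := (b3 P bP).1
    rwa [hbi] at this
  have hP'P : Teq 4 (P' ++ P) [] := by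
    have := (b3 P bP).2
    rwa [hbi] at this
  have hB : ∀ a : ℕ, Teq 4 (P ++ (List.replicate a uW).flatten ++ P')
      ((List.replicate a (xW b)).flatten) := by
    intro a
    induction a with
    | zero => simpa using hPP'
    | succ a ih =>
      rw [List.replicate_succ (a := xW b), List.flatten_cons, List.replicate_succ (a := uW),
        List.flatten_cons, xW_eq b]
      -- insert `P' ++ P`
      have h1 := hctx (P ++ uW) ((List.replicate a uW).flatten ++ P') _ _
        (br4_append bP br4_uW) (br4_append (br4_flat a br4_uW) bP') (br4_append bP' bP) hP'P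
      have h2 := hctx (P ++ uW ++ P') [] _ _ (br4_append (br4_append bP br4_uW) bP') br4_nil
        (br4_append (br4_append bP (br4_flat a br4_uW)) bP') ih
      rw [List.append_nil, List.append_nil] at h2
      have h3 := htr (hsym h1) (by simpa [List.append_assoc] using h2)
      rw [xW_eq b, ← hP, ← hP'] at h3
      simpa [List.append_assoc] using h3
  have h1 := hctx P P' _ _ bP bP' (br4_append (br4_replicate true 0 a (by norm_num))
    (br4_replicate false 2 a (by norm_num))) (hC a)
  have h2 := htr h1 (hB a)
  simpa [List.append_assoc] using h2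

end Pool.Agent.Helper10.LK
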